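import Mathlib
import Pool.Agent.LPc5.MainC

set_option autoImplicit false

/-!
Put `R(M) = log M (loglog M)^2 loglogloglog M / (logloglog M)^2`.  Here the residue `c` is fixed (or
moves slowly with `M`, and may be negative) and the modulus varies.  For every integer `c ≠ 0` with
`|c| ≤ M` and at most `exp ((1 - κ) loglog M loglogloglog M / logloglog M)` distinct prime factors,
every interval of moduli of length `M ^ ε` which starts above `M ^ ε` contains some `m` coprime to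
`c` such that no prime `q ≡ c (mod m)` with `q > c` satisfies `q ≤ c + c₀ ε (φ(|c|)/|c|) m R(M)`.
The constant `c₀` is absolute; only the size of the first admissible `M` depends on `κ` and `ε`.
-/

namespace Pool.Agent.Results.MP_e1dc24_nt.FixedResidueBeyondRankin

theorem result :
    ∃ c₀ : ℝ, 0 < c₀ ∧ ∀ κ : ℝ, 0 < κ → ∀ ε : ℝ, 0 < ε → ε ≤ 1 → ∃ M₀ : ℕ, ∀ M : ℕ, M₀ ≤ M →
      ∀ c : ℤ, c ≠ 0 → |c| ≤ M →
      (c.natAbs.primeFactors.card : ℝ) ≤ Real.exp ((1 - κ) * (Real.log (Real.log M) *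
        Real.log (Real.log (Real.log (Real.log M))) / Real.log (Real.log (Real.log M)))) →
      ∀ y : ℕ, (M : ℝ) ^ ε ≤ y → ∃ m : ℕ, (y : ℝ) ≤ m ∧ (m : ℝ) ≤ y + (M : ℝ) ^ ε ∧
        IsCoprime c (m : ℤ) ∧ ∀ q : ℕ, q.Prime → (q : ℤ) ≡ c [ZMOD m] → c < q →
          (c : ℝ) + c₀ * ε * ((c.natAbs.totient : ℝ) / c.natAbs) * m * (Real.log M *
            Real.log (Real.log M) ^ 2 * Real.log (Real.log (Real.log (Real.log M))) /
              (Real.log (Real.log (Real.log M))) ^ 2) < q := by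
  obtain ⟨c₀, hc₀, h⟩ := Pool.Agent.LPc5.finalCc
  refine ⟨c₀, hc₀, fun κ hκ ε hε hε1 => ?_⟩
  obtain ⟨M₀, hM₀⟩ := h κ hκ ε hε hε1
  refine ⟨M₀, fun M hM c hc hcM hω y hy => ?_⟩
  obtain ⟨m, h1, h2, h3, h4⟩ := hM₀ M hM c hc hcM hω y hy
  exact ⟨m, h1, h2, h3, fun q hq hqc hcq => h4 q hq hqc hcq⟩

end Pool.Agent.Results.MP_e1dc24_nt.FixedResidueBeyondRankin
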